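import Pool.Agent.Helper58.R5.Mult

/-!
# MP_7ef5a1_co: the shared host with far vertices
-/

set_option autoImplicit false
open Classical

namespace Pool.Agent.Helper58.R5

open Pool.Agent.Helper77.SND (Copy Apx Crit)

/-- `x` is not a twin of `v` (nor `v` itself) and not in `I` -/
def Rem {m : ℕ} (H : SimpleGraph (Fin m)) (v : Fin m) (I : Finset (Fin m)) (x : Fin m) : Prop :=
  (¬ ∀ u, H.Adj x u ↔ H.Adj v u) ∧ x ∉ I

/-- The graph obtained from `H` by deleting `v`, its twins and `I` (they are kept as isolated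
vertices), adding `δ - 1` new vertices joined to all remaining nonneighbours of `v` which have a
neighbour in `N(v)` or in `I`, and joining every neighbour of `v` outside `N` to all remaining
nonneighbours of `v` which have a neighbour in `I`. -/
def ghost {m : ℕ} (H : SimpleGraph (Fin m)) (δ : ℕ) (v : Fin m) (I N : Finset (Fin m)) :
    SimpleGraph (Fin m ⊕ Fin (δ - 1)) where
  Adj p q := match p, q with
    | Sum.inl a, Sum.inl b => Rem H v I a ∧ Rem H v I b ∧ (H.Adj a b ∨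
        (H.Adj v a ∧ a ∉ N ∧ ¬ H.Adj v b ∧ ∃ c ∈ I, H.Adj c b) ∨
        (H.Adj v b ∧ b ∉ N ∧ ¬ H.Adj v a ∧ ∃ c ∈ I, H.Adj c a))
    | Sum.inl a, Sum.inr _ => Rem H v I a ∧ ¬ H.Adj v a ∧
        ((∃ y, H.Adj v y ∧ H.Adj y a) ∨ ∃ c ∈ I, H.Adj c a)
    | Sum.inr _, Sum.inl b => Rem H v I b ∧ ¬ H.Adj v b ∧
        ((∃ y, H.Adj v y ∧ H.Adj y b) ∨ ∃ c ∈ I, H.Adj c b)
    | Sum.inr _, Sum.inr _ => False
  symm := ⟨fun p q h => by
    cases p <;> cases q
    · obtain ⟨h1, h2, h3⟩ := h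
      refine ⟨h2, h1, ?_⟩
      rcases h3 with h3 | h3 | h3
      · exact Or.inl h3.symm
      · exact Or.inr (Or.inr h3)
      · exact Or.inr (Or.inl h3)
    · exact h
    · exact h
    · exact h⟩
  loopless := ⟨fun p h => by
    cases p
    · obtain ⟨_, _, h3⟩ := h
      rcases h3 with h3 | h3 | h3
      · exact H.loopless.irrefl _ h3
      · exact h3.2.2.1 h3.1
      · exact h3.2.2.1 h3.1
    · exact h⟩

variable {m : ℕ}

/-- the twin class of `v0` -/
noncomputable def ZZ (H : SimpleGraph (Fin m)) (v0 : Fin m) : Finset (Fin m) :=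
  Finset.univ.filter (fun x => ∀ u, H.Adj x u ↔ H.Adj v0 u)

/-- the places of `Y` and `I` -/
theorem places2 (Y I N : Finset (Fin m)) (hYI : Disjoint Y I) (hNY : N ⊆ Y)
    (d : ℕ) (hY : Y.card = d) (hc : N.card + I.card + 1 ≤ d)
    (T : Finset (Fin m ⊕ Fin (d - 1))) (hT : T.card = d)
    (hTW : ∀ z ∈ T, ∀ y, z = Sum.inl y → y ∈ Y) :
    ∃ g : Fin m → (Fin m ⊕ Fin (d - 1)),
      (∀ x ∈ Y ∪ I, ∀ y ∈ Y ∪ I, g x = g y → x = y) ∧
      (∀ y ∈ Y, g y ∈ T ∧ (g y = Sum.inl y ∨ ∃ j, g y = Sum.inr j)) ∧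
      (∀ x ∈ I, (∃ y ∈ Y, y ∉ N ∧ g x = Sum.inl y) ∨ ∃ j, g x = Sum.inr j) := by
  let Y2 := Y.filter (fun y => ¬ (Sum.inl y : Fin m ⊕ Fin (d - 1)) ∈ T)
  let T2 := T.filter (fun z => ¬ z.isLeft = true)
  let G : Finset (Fin m ⊕ Fin (d - 1)) :=
    ((Y \ N).image Sum.inl ∪ (Finset.univ : Finset (Fin (d - 1))).image Sum.inr) \ T
  have hY12 := Finset.card_filter_add_card_filter_not (s := Y)
    (fun y => (Sum.inl y : Fin m ⊕ Fin (d - 1)) ∈ T)
  have hT12 := Finset.card_filter_add_card_filter_not (s := T) (fun z => z.isLeft = true)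
  have h1 : (Y.filter (fun y => (Sum.inl y : Fin m ⊕ Fin (d - 1)) ∈ T)).card =
      (T.filter (fun z => z.isLeft = true)).card := by
    apply Finset.card_bij (fun y _ => Sum.inl y)
    · intro y hy
      exact Finset.mem_filter.2 ⟨(Finset.mem_filter.1 hy).2, rfl⟩
    · intro a _ b _ h
      exact Sum.inl.inj h
    · intro z hz
      obtain ⟨h1, h2⟩ := Finset.mem_filter.1 hz
      rcases z with y | j
      · exact ⟨y, Finset.mem_filter.2 ⟨hTW _ h1 y rfl, h1⟩, rfl⟩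
      · exact absurd h2 (by simp)
  have hY2 : Y2.card = T2.card := by
    change (Y.filter _).card = (T.filter _).card
    omega
  have hG : I.card ≤ G.card := by
    have h2 := Finset.le_card_sdiff (T \ (N.image Sum.inl))
      ((Y \ N).image Sum.inl ∪ (Finset.univ : Finset (Fin (d - 1))).image Sum.inr)
    have h3 : ((Y \ N).image Sum.inl ∪ (Finset.univ : Finset (Fin (d - 1))).image Sum.inr) \
        (T \ (N.image Sum.inl)) ⊆ G := by
      intro z hz
      obtain ⟨h4, h5⟩ := Finset.mem_sdiff.1 hz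
      refine Finset.mem_sdiff.2 ⟨h4, fun h6 => h5 (Finset.mem_sdiff.2 ⟨h6, fun h7 => ?_⟩)⟩
      obtain ⟨y, hy, hy2⟩ := Finset.mem_image.1 h7
      rcases Finset.mem_union.1 h4 with h8 | h8
      · obtain ⟨y', hy', hy2'⟩ := Finset.mem_image.1 h8
        rw [← hy2'] at hy2
        rw [Sum.inl.inj hy2] at hy
        exact (Finset.mem_sdiff.1 hy').2 hy
      · obtain ⟨j, _, hj⟩ := Finset.mem_image.1 h8
        rw [← hj] at hy2
        exact absurd hy2 (by simp)
    have h4 := Finset.card_le_card h3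
    have h5 : ((Y \ N).image Sum.inl ∪ (Finset.univ : Finset (Fin (d - 1))).image Sum.inr :
        Finset (Fin m ⊕ Fin (d - 1))).card = (d - N.card) + (d - 1) := by
      rw [Finset.card_union_of_disjoint, Finset.card_image_of_injective _ Sum.inl_injective,
        Finset.card_image_of_injective _ Sum.inr_injective, Finset.card_univ, Fintype.card_fin,
        Finset.card_sdiff_of_subset hNY, hY]
      rw [Finset.disjoint_left]
      intro z hz hz2
      obtain ⟨y, _, hy⟩ := Finset.mem_image.1 hz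
      obtain ⟨j, _, hj⟩ := Finset.mem_image.1 hz2
      rw [← hy] at hj
      exact absurd hj (by simp)
    have h6 : (T \ (N.image Sum.inl)).card ≤ d :=
      (Finset.card_le_card Finset.sdiff_subset).trans hT.le
    rw [h5] at h2
    omega
  obtain ⟨G', hG', hG'c⟩ := Finset.exists_subset_card_eq hG
  let c := Finset.equivOfCardEq hY2
  let c' := Finset.equivOfCardEq hG'c.symm
  obtain ⟨g, hg1, hg2, hg3⟩ : ∃ g : Fin m → (Fin m ⊕ Fin (d - 1)),
      (∀ y, (Sum.inl y : Fin m ⊕ Fin (d - 1)) ∈ T → g y = Sum.inl y) ∧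
      (∀ y (h : y ∈ Y2), g y = (c ⟨y, h⟩).1) ∧
      (∀ x (h : x ∈ I), g x = (c' ⟨x, h⟩).1) := by
    refine ⟨fun x => if (Sum.inl x : Fin m ⊕ Fin (d - 1)) ∈ T then Sum.inl x
      else if h2 : x ∈ Y2 then (c ⟨x, h2⟩).1
      else if h3 : x ∈ I then (c' ⟨x, h3⟩).1
      else Sum.inl x, ?_, ?_, ?_⟩
    · intro y h
      simp only [if_pos h]
    · intro y h
      have h1 := (Finset.mem_filter.1 h).2
      simp only [if_neg h1, dif_pos h]
    · intro x h
      have h1 : ¬ (Sum.inl x : Fin m ⊕ Fin (d - 1)) ∈ T := fun h1 =>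
        Finset.disjoint_left.1 hYI (hTW _ h1 x rfl) h
      have h2 : x ∉ Y2 := fun h2 =>
        Finset.disjoint_left.1 hYI (Finset.mem_filter.1 h2).1 h
      simp only [if_neg h1, dif_neg h2, dif_pos h]
  have hcase : ∀ x ∈ Y ∪ I, (Sum.inl x : Fin m ⊕ Fin (d - 1)) ∈ T ∨ x ∈ Y2 ∨ x ∈ I := by
    intro x hx
    rcases Finset.mem_union.1 hx with h | h
    · by_cases h1 : (Sum.inl x : Fin m ⊕ Fin (d - 1)) ∈ T
      · exact Or.inl h1
      · exact Or.inr (Or.inl (Finset.mem_filter.2 ⟨h, h1⟩))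
    · exact Or.inr (Or.inr h)
  have hcT : ∀ z, (c z).1 ∈ T ∧ ∃ j, (c z).1 = Sum.inr j := by
    intro z
    obtain ⟨h2, h3⟩ := Finset.mem_filter.1 (c z).2
    refine ⟨h2, ?_⟩
    rcases h4 : (c z).1 with y | j
    · rw [h4] at h3
      exact absurd rfl h3
    · exact ⟨j, rfl⟩
  have hc'T : ∀ z, ¬ (c' z).1 ∈ T := fun z => (Finset.mem_sdiff.1 (hG' (c' z).2)).2
  refine ⟨g, ?_, ?_, ?_⟩
  · intro x hx y hy h
    rcases hcase x hx with h1 | h1 | h1 <;> rcases hcase y hy with h2 | h2 | h2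
    · rw [hg1 x h1, hg1 y h2] at h
      exact Sum.inl.inj h
    · obtain ⟨j, hj⟩ := (hcT ⟨y, h2⟩).2
      rw [hg1 x h1, hg2 y h2, hj] at h
      exact absurd h (by simp)
    · exfalso
      rw [hg1 x h1, hg3 y h2] at h
      exact hc'T ⟨y, h2⟩ (h ▸ h1)
    · obtain ⟨j, hj⟩ := (hcT ⟨x, h1⟩).2
      rw [hg2 x h1, hg1 y h2, hj] at h
      exact absurd h (by simp)
    · rw [hg2 x h1, hg2 y h2] at h
      exact congrArg (fun t => t.1) (c.injective (Subtype.ext h))
    · exfalso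
      rw [hg2 x h1, hg3 y h2] at h
      exact hc'T ⟨y, h2⟩ (h ▸ (hcT ⟨x, h1⟩).1)
    · exfalso
      rw [hg3 x h1, hg1 y h2] at h
      exact hc'T ⟨x, h1⟩ (h ▸ h2)
    · exfalso
      rw [hg3 x h1, hg2 y h2] at h
      exact hc'T ⟨x, h1⟩ (h ▸ (hcT ⟨y, h2⟩).1)
    · rw [hg3 x h1, hg3 y h2] at h
      exact congrArg (fun t => t.1) (c'.injective (Subtype.ext h))
  · intro y hy
    by_cases h1 : (Sum.inl y : Fin m ⊕ Fin (d - 1)) ∈ T
    · rw [hg1 y h1]
      exact ⟨h1, Or.inl rfl⟩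
    · have h2 : y ∈ Y2 := Finset.mem_filter.2 ⟨hy, h1⟩
      rw [hg2 y h2]
      exact ⟨(hcT _).1, Or.inr (hcT _).2⟩
  · intro x hx
    rw [hg3 x hx]
    have h2 := (Finset.mem_sdiff.1 (hG' (c' ⟨x, hx⟩).2)).1
    rcases Finset.mem_union.1 h2 with h3 | h3
    · left
      obtain ⟨y, hy, hy2⟩ := Finset.mem_image.1 h3
      obtain ⟨h4, h5⟩ := Finset.mem_sdiff.1 hy
      exact ⟨y, h4, h5, hy2.symm⟩
    · right
      obtain ⟨j, _, hj⟩ := Finset.mem_image.1 h3
      exact ⟨j, hj.symm⟩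

theorem crit_ghost (H : SimpleGraph (Fin m)) (v0 : Fin m) (hv0 : H.degree v0 = H.minDegree)
    (hd : 1 ≤ H.minDegree) (hind : ∀ a b, H.Adj v0 a → H.Adj v0 b → ¬ H.Adj a b)
    (I N : Finset (Fin m)) (hN : ∀ y ∈ N, H.Adj v0 y)
    (hI : ∀ x ∈ I, ¬ H.Adj v0 x ∧ ∀ y, H.Adj v0 y → ¬ H.Adj y x)
    (hII : ∀ x ∈ I, ∀ y ∈ I, ¬ H.Adj x y)
    (hcard : N.card + I.card + 1 ≤ H.minDegree)
    (hfree : ∀ φ, ¬ Copy H (ghost H H.minDegree v0 I N) φ) : Crit H := by
  let Y := H.neighborFinset v0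
  have hYm : ∀ y, y ∈ Y ↔ H.Adj v0 y := fun y => SimpleGraph.mem_neighborFinset _ _ _
  have hYc : Y.card = H.minDegree := by
    rw [SimpleGraph.card_neighborFinset_eq_degree, hv0]
  have hNY : N ⊆ Y := fun y hy => (hYm y).2 (hN y hy)
  have hYI : Disjoint Y I := by
    rw [Finset.disjoint_left]
    intro y hy hy2
    exact (hI y hy2).1 ((hYm y).1 hy)
  have hv0n : ∃ y, H.Adj v0 y := by
    have h1 : 0 < Y.card := by omega
    obtain ⟨y, hy⟩ := Finset.card_pos.1 h1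
    exact ⟨y, (hYm y).1 hy⟩
  have hZI : Disjoint (ZZ H v0) I := by
    rw [Finset.disjoint_left]
    intro x hx hx2
    obtain ⟨y, hy⟩ := hv0n
    exact (hI x hx2).2 y hy (((Finset.mem_filter.1 hx).2 y).2 hy).symm
  have hZY : Disjoint (ZZ H v0) Y := by
    rw [Finset.disjoint_left]
    intro x hx hx2
    exact H.loopless.irrefl x (((Finset.mem_filter.1 hx).2 x).2 ((hYm x).1 hx2))
  have hdis : Disjoint (ZZ H v0) (Y ∪ I) := Finset.disjoint_union_right.2 ⟨hZY, hZI⟩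
  have hRY : ∀ y, y ∈ Y → Rem H v0 I y := fun y hy =>
    ⟨fun h => Finset.disjoint_left.1 hZY (Finset.mem_filter.2 ⟨Finset.mem_univ _, h⟩) hy,
      fun h => Finset.disjoint_left.1 hYI hy h⟩
  -- the vertices `w`
  let e : Fin H.minDegree ≃ {y // y ∈ Y} := (Finset.equivFinOfCardEq hYc).symm
  obtain ⟨w, hw1, hw2⟩ : ∃ w : Fin (2 * (H.minDegree - 1) + 1) → Fin m ⊕ Fin (H.minDegree - 1),
      (∀ (i : Fin (2 * (H.minDegree - 1) + 1)) (h : i.1 < H.minDegree),
        w i = Sum.inl (e ⟨i.1, h⟩).1) ∧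
      (∀ (i : Fin (2 * (H.minDegree - 1) + 1)) (h : ¬ i.1 < H.minDegree),
        w i = Sum.inr ⟨i.1 - H.minDegree, by have := i.2; omega⟩) :=
    ⟨fun i => if h : i.1 < H.minDegree then Sum.inl (e ⟨i.1, h⟩).1
      else Sum.inr ⟨i.1 - H.minDegree, by have := i.2; omega⟩,
      fun i h => dif_pos h, fun i h => dif_neg h⟩
  have hwinj : Function.Injective w := by
    intro i j hij
    by_cases hi : i.1 < H.minDegree <;> by_cases hj : j.1 < H.minDegree
    · rw [hw1 i hi, hw1 j hj] at hij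
      have h1 := congrArg Fin.val (e.injective (Subtype.ext (Sum.inl.inj hij)))
      exact Fin.ext h1
    · rw [hw1 i hi, hw2 j hj] at hij
      exact absurd hij (by simp)
    · rw [hw2 i hi, hw1 j hj] at hij
      exact absurd hij (by simp)
    · rw [hw2 i hi, hw2 j hj] at hij
      have h1 := congrArg Fin.val (Sum.inr.inj hij)
      simp only at h1
      exact Fin.ext (by omega)
  have hwY : ∀ i y, w i = Sum.inl y → y ∈ Y := by
    intro i y hi
    by_cases h : i.1 < H.minDegree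
    · rw [hw1 i h] at hi
      rw [← Sum.inl.inj hi]
      exact (e ⟨i.1, h⟩).2
    · rw [hw2 i h] at hi
      exact absurd hi (by simp)
  have hwind : ∀ i j, ¬ (ghost H H.minDegree v0 I N).Adj (w i) (w j) := by
    intro i j hij
    rcases hwi : w i with a | a <;> rcases hwj : w j with b | b <;> rw [hwi, hwj] at hij
    · have ha := (hYm a).1 (hwY i a hwi)
      have hb := (hYm b).1 (hwY j b hwj)
      rcases hij.2.2 with h | h | h
      · exact hind a b ha hb h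
      · exact h.2.2.1 hb
      · exact h.2.2.1 ha
    · exact hij.2.1 ((hYm a).1 (hwY i a hwi))
    · exact hij.2.1 ((hYm b).1 (hwY j b hwj))
    · exact hij
  refine mult H (ZZ H v0).card _ (ghost H H.minDegree v0 I N) w hwinj hwind hfree ?_
  intro T hT
  have hT' : (T.image w).card = H.minDegree := by
    rw [Finset.card_image_of_injective _ hwinj, hT]
  obtain ⟨g, hg1, hg2, hg3⟩ := places2 Y I N hYI hNY H.minDegree hYc hcard (T.image w) hT' (by
    intro z hz y hzy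
    obtain ⟨i, _, hi⟩ := Finset.mem_image.1 hz
    exact hwY i y (hi.trans hzy))
  let z := Finset.equivFin (ZZ H v0)
  have hJm : ∀ x, x ∉ ZZ H v0 → x ∉ Y ∪ I → Rem H v0 I x ∧ ¬ H.Adj v0 x := by
    intro x h1 h2
    refine ⟨⟨fun h => h1 (Finset.mem_filter.2 ⟨Finset.mem_univ _, h⟩),
      fun h => h2 (Finset.mem_union_right _ h)⟩, fun h =>
      h2 (Finset.mem_union_left _ ((hYm x).2 h))⟩
  have hcase : ∀ x, x ∈ ZZ H v0 ∨ x ∈ Y ∪ I ∨ (x ∉ ZZ H v0 ∧ x ∉ Y ∪ I) := by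
    intro x
    by_cases h1 : x ∈ ZZ H v0
    · exact Or.inl h1
    · by_cases h2 : x ∈ Y ∪ I
      · exact Or.inr (Or.inl h2)
      · exact Or.inr (Or.inr ⟨h1, h2⟩)
  have hZm : ∀ x, x ∈ ZZ H v0 → ∀ u, H.Adj x u ↔ H.Adj v0 u := fun x hx =>
    (Finset.mem_filter.1 hx).2
  have hZYI : ∀ x, x ∈ ZZ H v0 → x ∉ Y ∪ I := fun x hx hx2 =>
    Finset.disjoint_left.1 hdis hx hx2
  obtain ⟨F, hF1, hF2, hF3⟩ : ∃ F : Fin m →
      ((Fin m ⊕ Fin (H.minDegree - 1)) ⊕ Fin (ZZ H v0).card),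
      (∀ x (h : x ∈ ZZ H v0), F x = Sum.inr (z ⟨x, h⟩)) ∧
      (∀ x, x ∈ Y ∪ I → F x = Sum.inl (g x)) ∧
      (∀ x, x ∉ ZZ H v0 → x ∉ Y ∪ I → F x = Sum.inl (Sum.inl x)) := by
    refine ⟨fun x => if h : x ∈ ZZ H v0 then Sum.inr (z ⟨x, h⟩)
      else if h2 : x ∈ Y ∪ I then Sum.inl (g x)
      else Sum.inl (Sum.inl x), ?_, ?_, ?_⟩
    · intro x h
      simp only [dif_pos h]
    · intro x h
      have h1 : x ∉ ZZ H v0 := fun h2 => hZYI x h2 h
      simp only [dif_neg h1, dif_pos h]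
    · intro x h1 h2
      simp only [dif_neg h1, dif_neg h2]
  -- a place of `Y ∪ I` is not a remaining vertex
  have hgY : ∀ x ∈ Y ∪ I, ∀ y, g x = Sum.inl y → y ∈ Y := by
    intro x hx y hy
    rcases Finset.mem_union.1 hx with h | h
    · rcases (hg2 x h).2 with h1 | ⟨j, h1⟩
      · rw [h1] at hy
        rw [← Sum.inl.inj hy]
        exact h
      · rw [h1] at hy
        exact absurd hy (by simp)
    · rcases hg3 x h with ⟨y', h1, _, h2⟩ | ⟨j, h1⟩
      · rw [h2] at hy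
        rw [← Sum.inl.inj hy]
        exact h1
      · rw [h1] at hy
        exact absurd hy (by simp)
  refine ⟨F, ?_, ?_⟩
  · intro x y hxy
    rcases hcase x with hx | hx | hx <;> rcases hcase y with hy | hy | hy
    · rw [hF1 x hx, hF1 y hy] at hxy
      exact congrArg (fun t => t.1) (z.injective (Sum.inr.inj hxy))
    · rw [hF1 x hx, hF2 y hy] at hxy
      exact absurd hxy (by simp)
    · rw [hF1 x hx, hF3 y hy.1 hy.2] at hxy
      exact absurd hxy (by simp)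
    · rw [hF2 x hx, hF1 y hy] at hxy
      exact absurd hxy (by simp)
    · rw [hF2 x hx, hF2 y hy] at hxy
      exact hg1 x hx y hy (Sum.inl.inj hxy)
    · exfalso
      rw [hF2 x hx, hF3 y hy.1 hy.2] at hxy
      exact hy.2 (Finset.mem_union_left _ (hgY x hx y (Sum.inl.inj hxy)))
    · rw [hF3 x hx.1 hx.2, hF1 y hy] at hxy
      exact absurd hxy (by simp)
    · exfalso
      rw [hF3 x hx.1 hx.2, hF2 y hy] at hxy
      exact hx.2 (Finset.mem_union_left _ (hgY y hy x (Sum.inl.inj hxy).symm))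
    · rw [hF3 x hx.1 hx.2, hF3 y hy.1 hy.2] at hxy
      exact Sum.inl.inj (Sum.inl.inj hxy)
  · -- adjacency to the places of `T`
    have hYT : ∀ y, H.Adj v0 y → ∃ k ∈ T, g y = w k := by
      intro y hy
      obtain ⟨k, hk, hk2⟩ := Finset.mem_image.1 (hg2 y ((hYm y).2 hy)).1
      exact ⟨k, hk, hk2.symm⟩
    have hYI2 : ∀ x y, x ∈ Y ∪ I → y ∈ Y ∪ I → ¬ H.Adj x y := by
      intro x y hx hy hxy
      rcases Finset.mem_union.1 hx with h | h <;> rcases Finset.mem_union.1 hy with h' | h'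
      · exact hind x y ((hYm x).1 h) ((hYm y).1 h') hxy
      · exact (hI y h').2 x ((hYm x).1 h) hxy
      · exact (hI x h).2 y ((hYm y).1 h') hxy.symm
      · exact hII x h y h' hxy
    have hgJ : ∀ x y, x ∈ Y ∪ I → y ∉ ZZ H v0 → y ∉ Y ∪ I → H.Adj x y →
        (ghost H H.minDegree v0 I N).Adj (g x) (Sum.inl y) := by
      intro x y hx hy1 hy2 hxy
      obtain ⟨hR, hno⟩ := hJm y hy1 hy2
      rcases Finset.mem_union.1 hx with h | h
      · rcases (hg2 x h).2 with h1 | ⟨j, h1⟩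
        · rw [h1]
          exact ⟨hRY x h, hR, Or.inl hxy⟩
        · rw [h1]
          exact ⟨hR, hno, Or.inl ⟨x, (hYm x).1 h, hxy⟩⟩
      · rcases hg3 x h with ⟨y', h1, h3, h2⟩ | ⟨j, h1⟩
        · rw [h2]
          exact ⟨hRY y' h1, hR, Or.inr (Or.inl ⟨(hYm y').1 h1, h3, hno, x, h, hxy⟩)⟩
        · rw [h1]
          exact ⟨hR, hno, Or.inr ⟨x, h, hxy⟩⟩
    intro x y hxy
    rcases hcase x with hx | hx | hx
    · have hy : H.Adj v0 y := (hZm x hx y).1 hxy
      have hy2 : y ∈ Y ∪ I := Finset.mem_union_left _ ((hYm y).2 hy)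
      rw [hF1 x hx, hF2 y hy2]
      exact hYT y hy
    · rcases hcase y with hy | hy | hy
      · have hx2 : H.Adj v0 x := (hZm y hy x).1 hxy.symm
        rw [hF1 y hy, hF2 x hx]
        exact hYT x hx2
      · exact absurd hxy (hYI2 x y hx hy)
      · rw [hF2 x hx, hF3 y hy.1 hy.2]
        exact hgJ x y hx hy.1 hy.2 hxy
    · rcases hcase y with hy | hy | hy
      · exfalso
        have hx2 : H.Adj v0 x := (hZm y hy x).1 hxy.symm
        exact hx.2 (Finset.mem_union_left _ ((hYm x).2 hx2))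
      · rw [hF2 y hy, hF3 x hx.1 hx.2]
        exact (hgJ y x hy hx.1 hx.2 hxy.symm).symm
      · rw [hF3 x hx.1 hx.2, hF3 y hy.1 hy.2]
        exact ⟨(hJm x hx.1 hx.2).1, (hJm y hy.1 hy.2).1, Or.inl hxy⟩

end Pool.Agent.Helper58.R5
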