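import Pool.Agent.Helper58.R5.Trace
import Pool.Agent.Helper28.RS.Main
import Pool.Agent.Helper59.RS3.HS

/-!
# MP_7ef5a1_co: the main theorem on far vertices and neighbours of small degree
-/

set_option autoImplicit false
open Classical

namespace Pool.Agent.Helper58.R5

open Pool.Agent.Helper28.RS
open Pool.Agent.Helper77.SND (Crit st_FIN st_GLUE st_SEP3 st_HS)
open Pool.Agent.Helper58.RS (DSet)

variable {m : ℕ}

theorem ZZ_card (H : SimpleGraph (Fin m)) (v0 : Fin m) :
    (ZZ H v0).card = ((Finset.univ : Finset (Fin m)).filter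
      (fun x => x ≠ v0 ∧ ∀ u, H.Adj x u ↔ H.Adj v0 u)).card + 1 := by
  have h1 : ZZ H v0 = insert v0 ((Finset.univ : Finset (Fin m)).filter
      (fun x => x ≠ v0 ∧ ∀ u, H.Adj x u ↔ H.Adj v0 u)) := by
    ext x
    rw [ZZ, Finset.mem_filter, Finset.mem_insert, Finset.mem_filter]
    constructor
    · rintro ⟨_, h⟩
      by_cases hx : x = v0
      · exact Or.inl hx
      · exact Or.inr ⟨Finset.mem_univ _, hx, h⟩
    · rintro (h | h)
      · subst h
        exact ⟨Finset.mem_univ _, fun u => Iff.rfl⟩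
      · exact ⟨Finset.mem_univ _, h.2.2⟩
  rw [h1, Finset.card_insert_of_notMem]
  intro h
  exact (Finset.mem_filter.1 h).2.1 rfl

/-- the trace form -/
theorem crit_trace (H : SimpleGraph (Fin m)) (v0 : Fin m) (hv0 : H.degree v0 = H.minDegree)
    (hd : 1 ≤ H.minDegree) (hind : ∀ a b, H.Adj v0 a → H.Adj v0 b → ¬ H.Adj a b)
    (I : Finset (Fin m))
    (hI : ∀ x ∈ I, ¬ H.Adj v0 x ∧ ∀ y, H.Adj v0 y → ¬ H.Adj y x)
    (hII : ∀ x ∈ I, ∀ y ∈ I, ¬ H.Adj x y)
    (hc : ∀ S : Finset (Fin m), (∀ a ∈ S, ∀ b ∈ S, ¬ H.Adj a b) →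
      H.minDegree + (ZZ H v0).card + I.card ≤ S.card →
      S.card + min ((H.neighborFinset v0).filter
        (fun y => H.degree y + 1 ≤ H.minDegree + (ZZ H v0).card)).card
          (H.minDegree - 1 - I.card) + 1 ≤ 2 * H.minDegree →
      ¬ ∃ g : Fin m → Fin m, (∀ x, x ∉ S → ∀ y, y ∉ S → g x = g y → x = y) ∧
        (∀ x, x ∉ S → ¬ H.Adj v0 (g x) ∧ g x ∉ I ∧ ¬ ∀ u, H.Adj (g x) u ↔ H.Adj v0 u) ∧
        (∀ x, x ∉ S → ∀ y, y ∉ S → H.Adj x y → H.Adj (g x) (g y)) ∧
        (∀ x, x ∉ S → ∀ s ∈ S, H.Adj x s → ∃ c, (H.Adj v0 c ∨ c ∈ I) ∧ H.Adj c (g x))) :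
    Crit H := by
  have hzpos : 0 < (ZZ H v0).card := Finset.card_pos.2
    ⟨v0, Finset.mem_filter.2 ⟨Finset.mem_univ _, fun u => Iff.rfl⟩⟩
  by_cases hbig : H.minDegree ≤ I.card + 1
  · obtain ⟨I', hI', hI'c⟩ := Finset.exists_subset_card_eq
      (show H.minDegree - 1 ≤ I.card by omega)
    refine crit_ghost H v0 hv0 hd hind I' ∅ (fun y hy => absurd hy (Finset.notMem_empty y))
      (fun x hx => hI x (hI' hx)) (fun x hx y hy => hII x (hI' hx) y (hI' hy)) ?_ ?_
    · rw [Finset.card_empty, hI'c]; omega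
    · intro φ hφ
      obtain ⟨S, _, _, h1, h2, _⟩ := ghost_copy H v0 hv0 hd hind I' ∅
        (fun y hy => absurd hy (Finset.notMem_empty y)) (fun x hx => hI x (hI' hx)) φ hφ
      rw [Finset.card_empty] at h2
      omega
  · obtain ⟨N, hN, hNc⟩ := Finset.exists_subset_card_eq
      (s := (H.neighborFinset v0).filter
        (fun y => H.degree y + 1 ≤ H.minDegree + (ZZ H v0).card))
      (n := min ((H.neighborFinset v0).filter
        (fun y => H.degree y + 1 ≤ H.minDegree + (ZZ H v0).card)).card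
          (H.minDegree - 1 - I.card)) (Nat.min_le_left _ _)
    have hN2 : ∀ y ∈ N, H.Adj v0 y ∧ H.degree y + 1 ≤ H.minDegree + (ZZ H v0).card := by
      intro y hy
      have h2 := Finset.mem_filter.1 (hN hy)
      exact ⟨(SimpleGraph.mem_neighborFinset _ _ _).1 h2.1, h2.2⟩
    have hNle : N.card ≤ H.minDegree - 1 - I.card := by
      rw [hNc]
      exact Nat.min_le_right _ _
    refine crit_ghost H v0 hv0 hd hind I N (fun y hy => (hN2 y hy).1) hI hII (by omega) ?_
    intro φ hφ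
    obtain ⟨S, g, h0, h1, h2, h3⟩ := ghost_copy H v0 hv0 hd hind I N hN2 hI φ hφ
    rw [hNc] at h2
    exact hc S h0 h1 h2 ⟨g, h3⟩

/-- greedy independent sets -/
theorem greedy (H : SimpleGraph (Fin m)) (k : ℕ) : ∀ U : Finset (Fin m),
    k * (H.maxDegree + 1) ≤ U.card →
    ∃ I ⊆ U, I.card = k ∧ ∀ x ∈ I, ∀ y ∈ I, ¬ H.Adj x y := by
  induction k with
  | zero =>
    intro U _
    exact ⟨∅, Finset.empty_subset _, rfl, fun x hx => absurd hx (Finset.notMem_empty x)⟩
  | succ k ih =>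
    intro U hU
    have h1 : (k + 1) * (H.maxDegree + 1) = k * (H.maxDegree + 1) + (H.maxDegree + 1) := by ring
    obtain ⟨x, hx⟩ : U.Nonempty := Finset.card_pos.1 (by omega)
    have h2 : (insert x (H.neighborFinset x)).card ≤ H.maxDegree + 1 := by
      refine (Finset.card_insert_le _ _).trans ?_
      rw [SimpleGraph.card_neighborFinset_eq_degree]
      have := H.degree_le_maxDegree x
      omega
    have h3 := Finset.le_card_sdiff (insert x (H.neighborFinset x)) U
    obtain ⟨I, hI1, hI2, hI3⟩ := ih (U \ insert x (H.neighborFinset x)) (by omega)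
    have hxI : ∀ y ∈ I, y ≠ x ∧ ¬ H.Adj x y := by
      intro y hy
      have h4 := (Finset.mem_sdiff.1 (hI1 hy)).2
      rw [Finset.mem_insert, SimpleGraph.mem_neighborFinset] at h4
      push Not at h4
      exact h4
    have hxn : x ∉ I := fun h => (hxI x h).1 rfl
    refine ⟨insert x I, ?_, ?_, ?_⟩
    · intro y hy
      rcases Finset.mem_insert.1 hy with h | h
      · rw [h]; exact hx
      · exact (Finset.mem_sdiff.1 (hI1 h)).1
    · rw [Finset.card_insert_of_notMem hxn, hI2]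
    · intro a ha b hb
      rcases Finset.mem_insert.1 ha with h | h <;> rcases Finset.mem_insert.1 hb with h' | h'
      · rw [h, h']; exact H.loopless.irrefl x
      · rw [h]; exact (hxI b h').2
      · rw [h']; exact fun h5 => (hxI a h).2 h5.symm
      · exact hI3 a h b h'

/-- many vertices -/
theorem far_many (H : SimpleGraph (Fin m)) (v0 : Fin m) (hv0 : H.degree v0 = H.minDegree)
    (hd : 1 ≤ H.minDegree) (hn : 2 * (H.minDegree * H.maxDegree) ≤ m) :
    ∃ I : Finset (Fin m), H.minDegree ≤ I.card + 1 ∧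
      (∀ x ∈ I, ¬ H.Adj v0 x ∧ ∀ y, H.Adj v0 y → ¬ H.Adj y x) ∧
      ∀ x ∈ I, ∀ y ∈ I, ¬ H.Adj x y := by
  let B : Finset (Fin m) := insert v0 ((H.neighborFinset v0).biUnion
    (fun y => insert y ((H.neighborFinset y).erase v0)))
  have hB : B.card ≤ 1 + H.minDegree * H.maxDegree := by
    have h1 : ((H.neighborFinset v0).biUnion
        (fun y => insert y ((H.neighborFinset y).erase v0))).card ≤
        (H.neighborFinset v0).card * H.maxDegree := by
      apply Finset.card_biUnion_le_card_mul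
      intro y hy
      have h2 : v0 ∈ H.neighborFinset y :=
        (SimpleGraph.mem_neighborFinset _ _ _).2 ((SimpleGraph.mem_neighborFinset _ _ _).1 hy).symm
      have h3 := Finset.card_erase_of_mem h2
      have h4 := Finset.card_insert_le y ((H.neighborFinset y).erase v0)
      have h5 : 0 < (H.neighborFinset y).card := Finset.card_pos.2 ⟨v0, h2⟩
      have h6 := H.degree_le_maxDegree y
      rw [SimpleGraph.card_neighborFinset_eq_degree] at h3 h5
      omega
    rw [SimpleGraph.card_neighborFinset_eq_degree, hv0] at h1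
    have h2 := Finset.card_insert_le v0 ((H.neighborFinset v0).biUnion
      (fun y => insert y ((H.neighborFinset y).erase v0)))
    have h3 : B.card = (insert v0 ((H.neighborFinset v0).biUnion
      (fun y => insert y ((H.neighborFinset y).erase v0)))).card := rfl
    omega
  have hU : (H.minDegree - 1) * (H.maxDegree + 1) ≤ (Bᶜ).card := by
    have h1 := Finset.card_compl_add_card B
    rw [Fintype.card_fin] at h1
    have h2 : H.minDegree ≤ H.maxDegree := by
      rw [← hv0]
      exact H.degree_le_maxDegree v0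
    obtain ⟨k, hk⟩ : ∃ k, H.minDegree = k + 1 := ⟨H.minDegree - 1, by omega⟩
    rw [hk, Nat.add_sub_cancel]
    rw [hk] at hn hB h2
    nlinarith
  obtain ⟨I, hI1, hI2, hI3⟩ := greedy H (H.minDegree - 1) _ hU
  refine ⟨I, by omega, ?_, hI3⟩
  intro x hx
  have h1 := Finset.mem_compl.1 (hI1 hx)
  constructor
  · intro h2
    apply h1
    exact Finset.mem_insert_of_mem (Finset.mem_biUnion.2
      ⟨x, (SimpleGraph.mem_neighborFinset _ _ _).2 h2, Finset.mem_insert_self _ _⟩)
  · intro y hy hyx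
    apply h1
    by_cases hx0 : x = v0
    · rw [hx0]
      exact Finset.mem_insert_self _ _
    · exact Finset.mem_insert_of_mem (Finset.mem_biUnion.2
        ⟨y, (SimpleGraph.mem_neighborFinset _ _ _).2 hy, Finset.mem_insert_of_mem
          (Finset.mem_erase.2 ⟨hx0, (SimpleGraph.mem_neighborFinset _ _ _).2 hyx⟩)⟩)

/-- the main theorem -/
theorem main_far (H : SimpleGraph (Fin m)) (hm : 4 ≤ m)
    (h3 : ∀ S : Finset (Fin m), S.card ≤ 2 → (H.induce {v | v ∉ S}).Connected)
    (htf : H.CliqueFree 3)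
    (hc : 2 * (H.minDegree * H.maxDegree) ≤ m ∨
      ∃ (v : Fin m) (I : Finset (Fin m)) (τ k : ℕ), H.degree v = H.minDegree ∧
        (∀ x ∈ I, x ≠ v ∧ ¬ H.Adj v x ∧ ∀ y, H.Adj v y → ¬ H.Adj y x) ∧
        (∀ x ∈ I, ∀ y ∈ I, ¬ H.Adj x y) ∧
        τ = ((Finset.univ : Finset (Fin m)).filter
          (fun x => x ≠ v ∧ ∀ u, H.Adj x u ↔ H.Adj v u)).card ∧
        k = min ((Finset.univ : Finset (Fin m)).filter
          (fun y => H.Adj v y ∧ H.degree y ≤ H.minDegree + τ)).card
            (H.minDegree - 1 - I.card) ∧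
        ∀ S : Finset (Fin m), (∀ a ∈ S, ∀ b ∈ S, ¬ H.Adj a b) →
          H.minDegree + τ + I.card < S.card → S.card + k < 2 * H.minDegree →
          ¬ ∃ g : Fin m → Fin m, (∀ x, x ∉ S → ∀ y, y ∉ S → g x = g y → x = y) ∧
            (∀ x, x ∉ S → ¬ H.Adj v (g x) ∧ g x ∉ I ∧ ¬ ∀ u, H.Adj (g x) u ↔ H.Adj v u) ∧
            (∀ x, x ∉ S → ∀ y, y ∉ S → H.Adj x y → H.Adj (g x) (g y)) ∧
            (∀ x, x ∉ S → ∀ s ∈ S, H.Adj x s → ∃ c, (H.Adj v c ∨ c ∈ I) ∧ H.Adj c (g x))) :
    sInf (DSet H) = 2 * (H.minDegree - 1) + 1 := by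
  have hC := st_SEP3 m H ⟨hm, h3⟩
  have hδ := min_pos3 H hm h3
  have htf' := TF_of_cliqueFree H htf
  have hind : ∀ v a b, H.Adj v a → H.Adj v b → ¬ H.Adj a b := fun v a b h1 h2 h4 =>
    htf' v a b h1 h4 h2
  have hcrit : Crit H := by
    rcases hc with hc | ⟨v, I, τ, k, hv, hI, hII, hτ, hk, hc⟩
    · have : Nonempty (Fin m) := ⟨⟨0, by omega⟩⟩
      obtain ⟨v, hv⟩ := H.exists_minimal_degree_vertex
      obtain ⟨I, hI1, hI2, hI3⟩ := far_many H v hv.symm (by omega) hc
      refine crit_trace H v hv.symm (by omega) (hind v) I hI2 hI3 ?_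
      intro S _ h1 h2
      have hzpos : 0 < (ZZ H v).card := Finset.card_pos.2
        ⟨v, Finset.mem_filter.2 ⟨Finset.mem_univ _, fun u => Iff.rfl⟩⟩
      omega
    · have hZ : (ZZ H v).card = τ + 1 := by
        rw [ZZ_card H v, hτ]
      have hF : (H.neighborFinset v).filter
          (fun y => H.degree y + 1 ≤ H.minDegree + (ZZ H v).card) =
          (Finset.univ : Finset (Fin m)).filter
            (fun y => H.Adj v y ∧ H.degree y ≤ H.minDegree + τ) := by
        ext y
        rw [Finset.mem_filter, Finset.mem_filter, SimpleGraph.mem_neighborFinset, hZ]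
        constructor
        · rintro ⟨h1, h2⟩
          exact ⟨Finset.mem_univ _, h1, by omega⟩
        · rintro ⟨_, h1, h2⟩
          exact ⟨h1, by omega⟩
      refine crit_trace H v hv (by omega) (hind v) I (fun x hx => (hI x hx).2) hII ?_
      intro S hS h1 h2
      rw [hF, ← hk] at h2
      exact hc S hS (by omega) (by omega)
  exact st_FIN st_GLUE m H hC (force_all (st_HS Pool.Agent.Helper77.SND.st_TWO) H hC) hcrit

end Pool.Agent.Helper58.R5
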