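import Pool.Agent.Helper77.SND.Stmts

/-!
# MP_7ef5a1_co: vertices joined to the critical sets are free
-/

set_option autoImplicit false
open Classical

namespace Pool.Agent.Helper58.R5

open Pool.Agent.Helper77.SND (Copy Apx Crit)

/-- `Γ` with `k` new vertices joined to the vertices satisfying `P` -/
def ApxN {V : Type} (Γ : SimpleGraph V) (P : V → Prop) (k : ℕ) : SimpleGraph (V ⊕ Fin k) where
  Adj u w := match u, w with
    | Sum.inl a, Sum.inl b => Γ.Adj a b
    | Sum.inl a, Sum.inr _ => P a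
    | Sum.inr _, Sum.inl b => P b
    | Sum.inr _, Sum.inr _ => False
  symm := ⟨fun u w h => by
    cases u <;> cases w
    · exact SimpleGraph.Adj.symm (G := Γ) h
    · exact h
    · exact h
    · exact h⟩
  loopless := ⟨fun u h => by
    cases u
    · exact Γ.loopless.irrefl _ h
    · exact h⟩

/-- copies are mapped along injective homomorphisms -/
theorem copy_map {m : ℕ} {H : SimpleGraph (Fin m)} {V V' : Type} {G : SimpleGraph V}
    {G' : SimpleGraph V'} {f : Fin m → V} (hf : Copy H G f) (g : V → V')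
    (hg : Function.Injective g) (hG : ∀ a b, G.Adj a b → G'.Adj (g a) (g b)) :
    Copy H G' (fun x => g (f x)) :=
  ⟨hg.comp hf.1, fun x y h => hG _ _ (hf.2 x y h)⟩

theorem zero_free {m : ℕ} {H : SimpleGraph (Fin m)} {V : Type} {Γ : SimpleGraph V}
    {P : V → Prop} (hfree : ∀ f, ¬ Copy H Γ f) : ¬ ∃ f, Copy H (ApxN Γ P 0) f := by
  rintro ⟨f, hf⟩
  have hex : ∀ x, ∃ a, f x = Sum.inl a := by
    intro x
    cases hfx : f x with
    | inl a => exact ⟨a, rfl⟩
    | inr b => exact b.elim0
  choose g hg using hex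
  refine hfree g ⟨fun x y h => hf.1 (by rw [hg x, hg y, h]), fun x y h => ?_⟩
  have h2 := hf.2 x y h
  rw [hg x, hg y] at h2
  exact h2

theorem step {m : ℕ} {H : SimpleGraph (Fin m)} {V : Type} {Γ : SimpleGraph V}
    {P : V → Prop} {P' : Option V → Prop} (hP : ∀ a, P a → P' (some a)) (k : ℕ)
    (h : ∃ f, Copy H (ApxN Γ P (k + 1)) f) : ∃ f, Copy H (ApxN (Apx Γ P) P' k) f := by
  obtain ⟨f, hf⟩ := h
  obtain ⟨g, hgl, hgr1, hgr2⟩ : ∃ g : V ⊕ Fin (k + 1) → Option V ⊕ Fin k,
      (∀ a, g (Sum.inl a) = Sum.inl (some a)) ∧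
      (∀ (i : Fin (k + 1)) (h : i.1 < k), g (Sum.inr i) = Sum.inr ⟨i.1, h⟩) ∧
      (∀ i : Fin (k + 1), ¬ i.1 < k → g (Sum.inr i) = Sum.inl none) := by
    refine ⟨fun z => match z with
      | Sum.inl a => Sum.inl (some a)
      | Sum.inr i => if h : i.1 < k then Sum.inr ⟨i.1, h⟩ else Sum.inl none, fun a => rfl,
      fun i h => dif_pos h, fun i h => dif_neg h⟩
  refine ⟨_, copy_map hf g ?_ ?_⟩
  · rintro (a | i) (b | j) h
    · rw [hgl, hgl] at h
      rw [Option.some.inj (Sum.inl.inj h)]
    · by_cases hj : j.1 < k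
      · rw [hgl, hgr1 j hj] at h
        exact absurd h (by simp)
      · rw [hgl, hgr2 j hj] at h
        exact absurd (Sum.inl.inj h) (by simp)
    · by_cases hi : i.1 < k
      · rw [hgl, hgr1 i hi] at h
        exact absurd h (by simp)
      · rw [hgl, hgr2 i hi] at h
        exact absurd (Sum.inl.inj h) (by simp)
    · by_cases hi : i.1 < k <;> by_cases hj : j.1 < k
      · rw [hgr1 i hi, hgr1 j hj] at h
        have h1 := congrArg Fin.val (Sum.inr.inj h)
        simp only at h1
        rw [Fin.ext h1]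
      · rw [hgr1 i hi, hgr2 j hj] at h
        exact absurd h (by simp)
      · rw [hgr2 i hi, hgr1 j hj] at h
        exact absurd h (by simp)
      · have hi2 := i.2
        have hj2 := j.2
        have : i = j := Fin.ext (by omega)
        rw [this]
  · rintro (a | i) (b | j) h
    · rw [hgl, hgl]
      exact h
    · have h' : P a := h
      by_cases hj : j.1 < k
      · rw [hgl, hgr1 j hj]
        exact hP a h'
      · rw [hgl, hgr2 j hj]
        exact h'
    · have h' : P b := h
      by_cases hi : i.1 < k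
      · rw [hgl, hgr1 i hi]
        exact hP b h'
      · rw [hgl, hgr2 i hi]
        exact h'
    · exact h.elim

theorem step2 {m : ℕ} {H : SimpleGraph (Fin m)} {V : Type} {Γ : SimpleGraph V}
    {P Q : V → Prop} {P' : Option V → Prop} (hP : ∀ a, P a → P' (some a)) (k : ℕ)
    (h : ∃ f, Copy H (ApxN Γ P k) f) : ∃ f, Copy H (ApxN (Apx Γ Q) P' k) f := by
  obtain ⟨f, hf⟩ := h
  obtain ⟨g, hgl, hgr⟩ : ∃ g : V ⊕ Fin k → Option V ⊕ Fin k,
      (∀ a, g (Sum.inl a) = Sum.inl (some a)) ∧ (∀ i, g (Sum.inr i) = Sum.inr i) :=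
    ⟨fun z => match z with
      | Sum.inl a => Sum.inl (some a)
      | Sum.inr i => Sum.inr i, fun a => rfl, fun i => rfl⟩
  refine ⟨_, copy_map hf g ?_ ?_⟩
  · rintro (a | i) (b | j) h
    · rw [hgl, hgl] at h
      rw [Option.some.inj (Sum.inl.inj h)]
    · rw [hgl, hgr] at h
      exact absurd h (by simp)
    · rw [hgl, hgr] at h
      exact absurd h (by simp)
    · rw [hgr, hgr] at h
      rw [Sum.inr.inj h]
  · rintro (a | i) (b | j) h
    · rw [hgl, hgl]
      exact h
    · rw [hgl, hgr]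
      exact hP a h
    · rw [hgl, hgr]
      exact hP b h
    · exact h.elim

/-- the inductive form -/
theorem mult_aux {m : ℕ} (H : SimpleGraph (Fin m)) :
    ∀ (N : ℕ) (μ : Finset (Fin (2 * (H.minDegree - 1) + 1)) → ℕ)
      (V : Type) (_ : Finite V) (Γ : SimpleGraph V)
      (w : Fin (2 * (H.minDegree - 1) + 1) → V),
      (∑ T ∈ Finset.powersetCard H.minDegree Finset.univ, μ T) = N →
      Function.Injective w → (∀ i j, ¬ Γ.Adj (w i) (w j)) → (∀ f, ¬ Copy H Γ f) →
      (∀ T : Finset (Fin (2 * (H.minDegree - 1) + 1)), T.card = H.minDegree →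
        ∃ f, Copy H (ApxN Γ (fun v => ∃ k ∈ T, v = w k) (μ T)) f) → Crit H := by
  intro N
  induction N with
  | zero =>
    intro μ V hV Γ w hN hw hind hfree hall
    refine ⟨V, hV, Γ, w, hw, hind, hfree, ?_⟩
    intro T hT
    exfalso
    have hμ : μ T = 0 := (Finset.sum_eq_zero_iff.1 hN) T
      (Finset.mem_powersetCard.2 ⟨Finset.subset_univ _, hT⟩)
    have h := hall T hT
    rw [hμ] at h
    exact zero_free hfree h
  | succ N ih =>
    intro μ V hV Γ w hN hw hind hfree hall
    by_cases hcr : ∀ T : Finset (Fin (2 * (H.minDegree - 1) + 1)), T.card = H.minDegree →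
        ∃ f, Copy H (Apx Γ (fun v => ∃ k ∈ T, v = w k)) f
    · exact ⟨V, hV, Γ, w, hw, hind, hfree, hcr⟩
    · push Not at hcr
      obtain ⟨T0, hT0, hno⟩ := hcr
      have hpos : 0 < μ T0 := by
        by_contra hcon
        have hμ : μ T0 = 0 := by omega
        have h := hall T0 hT0
        rw [hμ] at h
        exact zero_free hfree h
      have hT0m : T0 ∈ Finset.powersetCard H.minDegree
          (Finset.univ : Finset (Fin (2 * (H.minDegree - 1) + 1))) :=
        Finset.mem_powersetCard.2 ⟨Finset.subset_univ _, hT0⟩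
      refine ih (Function.update μ T0 (μ T0 - 1)) (Option V) inferInstance
        (Apx Γ (fun v => ∃ k ∈ T0, v = w k)) (fun i => some (w i)) ?_ ?_ ?_ ?_ ?_
      · have h1 := Finset.sum_update_of_mem hT0m μ (μ T0 - 1)
        rw [h1, Finset.sdiff_singleton_eq_erase]
        rw [← Finset.add_sum_erase _ _ hT0m] at hN
        omega
      · intro i j h
        exact hw (Option.some.inj h)
      · intro i j h
        exact hind i j h
      · exact hno
      · intro T hT
        by_cases hTT : T = T0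
        · subst hTT
          rw [Function.update_self]
          have h := hall T hT
          obtain ⟨k, hk⟩ : ∃ k, μ T = k + 1 := ⟨μ T - 1, by omega⟩
          rw [hk] at h ⊢
          rw [Nat.add_sub_cancel]
          exact step (fun a ⟨q, hq, hq2⟩ => ⟨q, hq, by rw [hq2]⟩) k h
        · rw [Function.update_of_ne hTT]
          exact step2 (fun a ⟨q, hq, hq2⟩ => ⟨q, hq, by rw [hq2]⟩) (μ T) (hall T hT)

/-- MULT: it suffices that many new vertices joined to `T` complete a copy of `H` -/
theorem mult {m : ℕ} (H : SimpleGraph (Fin m)) (k : ℕ) (V : Type) [hV : Finite V]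
    (Γ : SimpleGraph V) (w : Fin (2 * (H.minDegree - 1) + 1) → V)
    (hw : Function.Injective w) (hind : ∀ i j, ¬ Γ.Adj (w i) (w j)) (hfree : ∀ f, ¬ Copy H Γ f)
    (hall : ∀ T : Finset (Fin (2 * (H.minDegree - 1) + 1)), T.card = H.minDegree →
      ∃ f, Copy H (ApxN Γ (fun v => ∃ k ∈ T, v = w k) k) f) : Crit H :=
  mult_aux H _ (fun _ => k) V hV Γ w rfl hw hind hfree hall

end Pool.Agent.Helper58.R5
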