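import Pool.Agent.Helper58.R5.Ghost

/-!
# MP_7ef5a1_co: the trace of a copy of `H` in the shared host
-/

set_option autoImplicit false
open Classical

namespace Pool.Agent.Helper58.R5

open Pool.Agent.Helper77.SND (Copy Apx Crit)

variable {m : ℕ}

/-- a copy of `H` in the shared host gives an independent set `S` of `H` and an embedding of
`H - S` into `H - (N(v0) ∪ I)` without `v0` and its twins -/
theorem ghost_copy (H : SimpleGraph (Fin m)) (v0 : Fin m) (hv0 : H.degree v0 = H.minDegree)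
    (hd : 1 ≤ H.minDegree) (hind : ∀ a b, H.Adj v0 a → H.Adj v0 b → ¬ H.Adj a b)
    (I N : Finset (Fin m))
    (hN : ∀ y ∈ N, H.Adj v0 y ∧ H.degree y + 1 ≤ H.minDegree + (ZZ H v0).card)
    (hI : ∀ x ∈ I, ¬ H.Adj v0 x ∧ ∀ y, H.Adj v0 y → ¬ H.Adj y x)
    (φ : Fin m → Fin m ⊕ Fin (H.minDegree - 1))
    (hφ : Copy H (ghost H H.minDegree v0 I N) φ) :
    ∃ (S : Finset (Fin m)) (g : Fin m → Fin m), (∀ a ∈ S, ∀ b ∈ S, ¬ H.Adj a b) ∧
      H.minDegree + (ZZ H v0).card + I.card ≤ S.card ∧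
      S.card + N.card + 1 ≤ 2 * H.minDegree ∧
      (∀ x, x ∉ S → ∀ y, y ∉ S → g x = g y → x = y) ∧
      (∀ x, x ∉ S → ¬ H.Adj v0 (g x) ∧ g x ∉ I ∧ ¬ ∀ u, H.Adj (g x) u ↔ H.Adj v0 u) ∧
      (∀ x, x ∉ S → ∀ y, y ∉ S → H.Adj x y → H.Adj (g x) (g y)) ∧
      (∀ x, x ∉ S → ∀ s ∈ S, H.Adj x s → ∃ c, (H.Adj v0 c ∨ c ∈ I) ∧ H.Adj c (g x)) := by
  let Y := H.neighborFinset v0
  have hYm : ∀ y, y ∈ Y ↔ H.Adj v0 y := fun y => SimpleGraph.mem_neighborFinset _ _ _
  have hYc : Y.card = H.minDegree := by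
    rw [SimpleGraph.card_neighborFinset_eq_degree, hv0]
  have hNY : N ⊆ Y := fun y hy => (hYm y).2 (hN y hy).1
  have hYI : Disjoint Y I := by
    rw [Finset.disjoint_left]
    intro y hy hy2
    exact (hI y hy2).1 ((hYm y).1 hy)
  have hv0n : ∃ y, H.Adj v0 y := by
    have h1 : 0 < Y.card := by omega
    obtain ⟨y, hy⟩ := Finset.card_pos.1 h1
    exact ⟨y, (hYm y).1 hy⟩
  have hZI : Disjoint (ZZ H v0) I := by
    rw [Finset.disjoint_left]
    intro x hx hx2
    obtain ⟨y, hy⟩ := hv0n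
    exact (hI x hx2).2 y hy (((Finset.mem_filter.1 hx).2 y).2 hy).symm
  have hZY : Disjoint (ZZ H v0) Y := by
    rw [Finset.disjoint_left]
    intro x hx hx2
    exact H.loopless.irrefl x (((Finset.mem_filter.1 hx).2 x).2 ((hYm x).1 hx2))
  have hdis : Disjoint (ZZ H v0) (Y ∪ I) := Finset.disjoint_union_right.2 ⟨hZY, hZI⟩
  let J := (ZZ H v0 ∪ (Y ∪ I))ᶜ
  have hJc : J.card + ((ZZ H v0).card + (H.minDegree + I.card)) = m := by
    have h1 := Finset.card_compl_add_card (ZZ H v0 ∪ (Y ∪ I))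
    rw [Finset.card_union_of_disjoint hdis, Finset.card_union_of_disjoint hYI, hYc,
      Fintype.card_fin] at h1
    exact h1
  have hmemJ : ∀ a, Rem H v0 I a → ¬ H.Adj v0 a → a ∈ J := by
    intro a h1 h2
    rw [Finset.mem_compl, Finset.mem_union, Finset.mem_union]
    rintro (h | h | h)
    · exact h1.1 (Finset.mem_filter.1 h).2
    · exact h2 ((hYm a).1 h)
    · exact h1.2 h
  -- no isolated vertices are used
  have hR : ∀ u a, φ u = Sum.inl a → Rem H v0 I a := by
    intro u a hu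
    have h1 : 0 < (H.neighborFinset u).card := by
      rw [SimpleGraph.card_neighborFinset_eq_degree]
      have := H.minDegree_le_degree u
      omega
    obtain ⟨z, hz⟩ := Finset.card_pos.1 h1
    have h2 := hφ.2 u z ((SimpleGraph.mem_neighborFinset _ _ _).1 hz)
    rw [hu] at h2
    cases hz2 : φ z with
    | inl b =>
      rw [hz2] at h2
      exact h2.1
    | inr j =>
      rw [hz2] at h2
      exact h2.1
  -- the vertices of `N` are not used
  have hno : ∀ u, ∀ y ∈ N, φ u ≠ Sum.inl y := by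
    intro u y hy hu
    obtain ⟨hvy, hdy⟩ := hN y hy
    have h1 : (H.neighborFinset u).card ≤ (J.filter (fun x => H.Adj y x)).card := by
      have h2 : ∀ z ∈ H.neighborFinset u, ∃ x : Fin m, φ z = Sum.inl x ∧ x ∈ J ∧ H.Adj y x := by
        intro z hz
        have h3 := hφ.2 u z ((SimpleGraph.mem_neighborFinset _ _ _).1 hz)
        rw [hu] at h3
        cases hz2 : φ z with
        | inl x =>
          rw [hz2] at h3
          obtain ⟨_, h5, h6⟩ := h3
          rcases h6 with h6 | h6 | h6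
          · exact ⟨x, rfl, hmemJ x h5 (fun h7 => hind y x hvy h7 h6), h6⟩
          · exact absurd hy h6.2.1
          · exact absurd hvy h6.2.2.1
        | inr j =>
          rw [hz2] at h3
          exact absurd hvy h3.2.1
      have : Nonempty (Fin m) := ⟨y⟩
      choose! g hg using h2
      apply Finset.card_le_card_of_injOn g
      · intro z hz
        obtain ⟨_, h3, h5⟩ := hg z hz
        exact Finset.mem_coe.2 (Finset.mem_filter.2 ⟨h3, h5⟩)
      · intro a ha b hb hab
        apply hφ.1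
        rw [(hg a ha).1, (hg b hb).1, hab]
    rw [SimpleGraph.card_neighborFinset_eq_degree] at h1
    have h2 : (J.filter (fun x => H.Adj y x)).card + (ZZ H v0).card ≤ H.degree y := by
      have hJZ : Disjoint J (ZZ H v0) := by
        rw [Finset.disjoint_left]
        intro x hx hx2
        exact (Finset.mem_compl.1 hx) (Finset.mem_union_left _ hx2)
      have hdis2 : Disjoint (J.filter (fun x => H.Adj y x)) (ZZ H v0) :=
        Finset.disjoint_of_subset_left (Finset.filter_subset _ _) hJZ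
      rw [← Finset.card_union_of_disjoint hdis2, ← SimpleGraph.card_neighborFinset_eq_degree]
      apply Finset.card_le_card
      intro x hx
      rw [SimpleGraph.mem_neighborFinset]
      rcases Finset.mem_union.1 hx with h | h
      · exact (Finset.mem_filter.1 h).2
      · exact (((Finset.mem_filter.1 h).2 y).2 hvy).symm
    have h4 := H.minDegree_le_degree u
    omega
  -- the independent part
  let S := (Finset.univ : Finset (Fin m)).filter
    (fun u => (∃ j, φ u = Sum.inr j) ∨ ∃ y, H.Adj v0 y ∧ φ u = Sum.inl y)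
  have hSi : ∀ a ∈ S, ∀ b ∈ S, ¬ H.Adj a b := by
    intro a ha b hb hab
    have h1 := hφ.2 a b hab
    rcases (Finset.mem_filter.1 ha).2 with ⟨i, hi⟩ | ⟨y, hy, hi⟩ <;>
      rcases (Finset.mem_filter.1 hb).2 with ⟨j, hj⟩ | ⟨z, hz, hj⟩ <;> rw [hi, hj] at h1
    · exact h1
    · exact h1.2.1 hz
    · exact h1.2.1 hy
    · rcases h1.2.2 with h2 | h2 | h2
      · exact hind y z hy hz h2
      · exact h2.2.2.1 hz
      · exact h2.2.2.1 hy
  have hSf : S.card + N.card + 1 ≤ 2 * H.minDegree := by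
    have h1 : S.image φ ⊆ (Finset.univ : Finset (Fin (H.minDegree - 1))).image Sum.inr ∪
        (Y \ N).image Sum.inl := by
      intro z hz
      obtain ⟨u, hu, hu2⟩ := Finset.mem_image.1 hz
      rw [Finset.mem_union]
      rcases (Finset.mem_filter.1 hu).2 with ⟨i, hi⟩ | ⟨y, hy, hi⟩
      · left
        rw [← hu2, hi]
        exact Finset.mem_image_of_mem _ (Finset.mem_univ _)
      · right
        rw [← hu2, hi]
        exact Finset.mem_image_of_mem _ (Finset.mem_sdiff.2
          ⟨(hYm y).2 hy, fun h => hno u y h hi⟩)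
    have h2 := (Finset.card_le_card h1).trans (Finset.card_union_le _ _)
    rw [Finset.card_image_of_injective _ hφ.1,
      Finset.card_image_of_injective _ Sum.inr_injective,
      Finset.card_image_of_injective _ Sum.inl_injective, Finset.card_univ, Fintype.card_fin,
      Finset.card_sdiff_of_subset hNY, hYc] at h2
    have h3 := Finset.card_le_card hNY
    omega
  -- the rest
  have hrest : ∀ u ∈ Sᶜ, ∃ a : Fin m, φ u = Sum.inl a ∧ a ∈ J ∧ ¬ H.Adj v0 a := by
    intro u hu
    rw [Finset.mem_compl] at hu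
    cases hu2 : φ u with
    | inl a =>
      have h1 : ¬ H.Adj v0 a := fun h =>
        hu (Finset.mem_filter.2 ⟨Finset.mem_univ _, Or.inr ⟨a, h, hu2⟩⟩)
      exact ⟨a, rfl, hmemJ a (hR u a hu2) h1, h1⟩
    | inr j => exact (hu (Finset.mem_filter.2 ⟨Finset.mem_univ _, Or.inl ⟨j, hu2⟩⟩)).elim
  have hne : Nonempty (Fin m) := ⟨v0⟩
  choose! g hg using hrest
  have hginj : ∀ a ∈ Sᶜ, ∀ b ∈ Sᶜ, g a = g b → a = b := by
    intro a ha b hb hab
    apply hφ.1
    rw [(hg a ha).1, (hg b hb).1, hab]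
  have hgadj : ∀ a ∈ Sᶜ, ∀ b ∈ Sᶜ, H.Adj a b → H.Adj (g a) (g b) := by
    intro a ha b hb hab
    have h1 := hφ.2 a b hab
    rw [(hg a ha).1, (hg b hb).1] at h1
    rcases h1.2.2 with h2 | h2 | h2
    · exact h2
    · exact absurd h2.1 (hg a ha).2.2
    · exact absurd h2.1 (hg b hb).2.2
  have hSc : (Sᶜ).card ≤ J.card := by
    apply Finset.card_le_card_of_injOn g
    · intro z hz
      exact Finset.mem_coe.2 (hg z hz).2.1
    · intro a ha b hb hab
      exact hginj a ha b hb hab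
  have hSbig : H.minDegree + (ZZ H v0).card + I.card ≤ S.card := by
    have h2 := Finset.card_add_card_compl S
    rw [Fintype.card_fin] at h2
    omega
  refine ⟨S, g, hSi, hSbig, hSf, ?_, ?_, ?_, ?_⟩
  · intro x hx y hy h
    exact hginj x (Finset.mem_compl.2 hx) y (Finset.mem_compl.2 hy) h
  · intro x hx
    have h1 := hg x (Finset.mem_compl.2 hx)
    have h2 := hR x (g x) h1.1
    exact ⟨h1.2.2, h2.2, h2.1⟩
  · intro x hx y hy h
    exact hgadj x (Finset.mem_compl.2 hx) y (Finset.mem_compl.2 hy) h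
  · intro x hx s hs hxs
    have h1 := hg x (Finset.mem_compl.2 hx)
    have h2 := hφ.2 x s hxs
    rw [h1.1] at h2
    rcases (Finset.mem_filter.1 hs).2 with ⟨j, hj⟩ | ⟨y, hy, hj⟩
    · rw [hj] at h2
      rcases h2.2.2 with ⟨y, hy, hy2⟩ | ⟨c, hc, hc2⟩
      · exact ⟨y, Or.inl hy, hy2⟩
      · exact ⟨c, Or.inr hc, hc2⟩
    · rw [hj] at h2
      rcases h2.2.2 with h3 | h3 | h3
      · exact ⟨y, Or.inl hy, h3.symm⟩
      · exact absurd h3.1 h1.2.2
      · obtain ⟨c, hc, hc2⟩ := h3.2.2.2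
        exact ⟨c, Or.inr hc, hc2⟩

end Pool.Agent.Helper58.R5
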